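import Pool.Agent.H18.QGR.Stmts

/-!
Row JEX of the board qgr: the Wick coefficients of the conjugate variables.
-/

set_option autoImplicit false

noncomputable section

namespace Pool.QGR

open Pool.CGR

theorem jex_thm (h1 : INVStmt) (h2 : ORTStmt) (h3 : CBDStmt) : JEXStmt := by
  intro m q Q hSQ A _ _ τ htr x hlaw
  have hort := h2 m q hSQ.symm A τ htr x hlaw
  have hp1 : τ (evP x (Wk q []) * evP x (Wk q [])) = 1 := by
    have e1 : evP x (Wk q []) = 1 := by
      rw [Wk, evP, Finsupp.linearCombination_single, one_smul]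
      rfl
    rw [e1, one_mul]
    have e2 := hlaw []
    have e3 : ev x ([] : List (Fin m)) = 1 := rfl
    rw [e3] at e2
    rw [e2, Fk, Finsupp.single_eq_same]
  have hinv := h1 m q Q hSQ (fun w v => τ (evP x (Wk q w) * evP x (Wk q v))) hp1
    (fun j w v hv => hort.2 j w v hv)
  have hQ0 := hSQ.nonneg
  have hQ1 : 0 < 1 - Q := by have := hSQ.lt; linarith
  have hL : 1 ≤ 1 / (1 - Q) := by
    rw [le_div_iff₀ hQ1]
    linarith
  refine ⟨?_, fun n b hb w hw => (hinv n).2 b hb w hw⟩
  have hex : ∀ (i : Fin m) (n : ℕ), ∃ j : List (Fin m) → ℂ,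
      (∀ w, ‖j w‖ ≤ Real.exp (2 / (1 - Q) ^ 2) ^ n *
        (Q ^ tr (n / 2) * (1 / (1 - Q)) ^ (n / 2))) ∧
      ∀ v : List (Fin m), v.length = n →
        ∑ w ∈ wn m n, j w * τ (evP x (Wk q w) * evP x (Wk q v)) = ci q i (Wk q v) := by
    intro i n
    refine (hinv n).1 (fun v => ci q i (Wk q v)) _ (by positivity) ?_
    intro v hv
    have := h3 m q Q hSQ i v
    rw [hv] at this
    exact this
  choose j hj1 hj2 using hex
  have hK : 1 ≤ Real.exp (2 / (1 - Q) ^ 2) := Real.one_le_exp (by positivity)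
  refine ⟨Real.exp (2 / (1 - Q) ^ 2) * (1 / (1 - Q)), fun i w => j i w.length w, ?_, ?_, ?_⟩
  · exact one_le_mul_of_one_le_of_one_le hK hL
  · intro i w
    refine (hj1 i w.length w).trans ?_
    rw [mul_pow, mul_assoc]
    apply mul_le_mul_of_nonneg_left _ (by positivity)
    rw [mul_comm]
    apply mul_le_mul_of_nonneg_right _ (by positivity)
    exact pow_le_pow_right₀ hL (Nat.div_le_self _ _)
  · intro i v
    rw [← hj2 i v.length v rfl]
    apply Finset.sum_congr rfl
    intro w hw
    rw [mem_wn] at hw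
    simp only [hw]

end Pool.QGR
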